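import Pool.Agent.Q297.StoMain

/-!
MP_d5803c, Q1: disproof. There is a random sequence with values in a two point space whose
stochastic module `L` is finite dimensional (dimension at most `3`), and which has the same
finite-dimensional distributions as `φ(X_n)` for no Markov process `X` of finite rank on any
measurable space and no measurable map `φ`.
-/

open MeasureTheory ProbabilityTheory Pool.Agent.Q297.Sto

namespace Pool.Agent.Results.MP_d5803c_pr.NoFiniteRank

universe u v

theorem result :
    ∃ (Ω : Type) (_ : MeasurableSpace Ω) (P : Measure Ω) (_ : IsProbabilityMeasure P)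
      (Y : ℕ → Ω → Bool) (hY : ∀ n, Measurable (Y n)),
      FiniteDimensional ℝ (LL P Y hY) ∧ Module.finrank ℝ (LL P Y hY) ≤ 3 ∧
      ∀ (Ω' : Type u) [MeasurableSpace Ω'] (S' : Type v) [MeasurableSpace S']
        (P' : Measure Ω') [IsProbabilityMeasure P'] (X : ℕ → Ω' → S')
        (p : Measure S') (κ : Kernel S' S') [IsMarkovKernel κ],
        IsMarkovProc P' X p κ → IsOfFiniteRank P' X κ →
        ∀ φ : S' → Bool, Measurable φ →
          ¬ ∀ n : ℕ, P'.map (fun ω (i : Fin n) => φ (X i ω))
            = P.map (fun ω (i : Fin n) => Y i ω) := by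
  refine ⟨Om, inferInstance, PP, inferInstance, YY, YY_meas, finite_LL, finrank_LL, ?_⟩
  intro Ω' _ S' _ P' _ X p κ _ hM hr φ hφ hlaw
  exact no_rep hM hr hφ hlaw

end Pool.Agent.Results.MP_d5803c_pr.NoFiniteRank
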